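import Pool.Agent.Q240.SD.Stm
import Pool.Agent.Q240.EW.Ew4
import Pool.Agent.Q208.EW.Fin3

/-! # Project SD, Dw: few negative directions, few zeros -/

set_option autoImplicit false

open Complex Filter Topology Finset MeasureTheory
open scoped ComplexConjugate

namespace Pool.Agent.Q208.SD

open Pool.Agent.Q240.EW
open Pool.Agent.Q240.SD
open Pool.Agent.Y23 (Zt IsZ mu)
open Pool.Agent.Q208.EW (cnt exists_comb exists_sep)

/-- the finite combinations -/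
lemma fa_comb {a : ℝ} {n : ℕ} (c : Fin n → ℂ) (g : Fin n → ℝ → ℂ) (hg : ∀ i, Y23.Fa a (g i)) :
    Y23.Fa a (fun x => ∑ i, c i * g i x) := by
  refine ⟨?_, fun x hx => ?_⟩
  · exact memLp_finsetSum _ fun i _ => (hg i).1.const_mul (c i)
  · exact Finset.sum_eq_zero fun i _ => by rw [(hg i).2 x hx, mul_zero]

/-- the norm of a combination -/
lemma n2_comb {a : ℝ} {n : ℕ} (c : Fin n → ℂ) (g : Fin n → ℝ → ℂ) (hg : ∀ i, Y23.Fa a (g i)) :
    Y23.N2 (fun x => ∑ i, c i * g i x) ≤ n * ∑ i, ‖c i‖ ^ 2 * Y23.N2 (g i) := by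
  have h1 : ∀ x, ‖∑ i, c i * g i x‖ ^ 2 ≤ n * ∑ i, ‖c i‖ ^ 2 * ‖g i x‖ ^ 2 := by
    intro x
    calc ‖∑ i, c i * g i x‖ ^ 2 ≤ (∑ i, ‖c i * g i x‖) ^ 2 :=
          pow_le_pow_left₀ (norm_nonneg _) (norm_sum_le _ _) 2
      _ ≤ ((Finset.univ : Finset (Fin n)).card : ℝ) * ∑ i, ‖c i * g i x‖ ^ 2 := sq_sum_le_card_mul_sum_sq
      _ = n * ∑ i, ‖c i‖ ^ 2 * ‖g i x‖ ^ 2 := by
          rw [Finset.card_univ, Fintype.card_fin]
          congr 1
          exact Finset.sum_congr rfl fun i _ => by rw [norm_mul, mul_pow]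
  have hint : ∀ i : Fin n, Integrable (fun x => ‖c i‖ ^ 2 * ‖g i x‖ ^ 2) := fun i =>
    ((hg i).sq_int).const_mul _
  have hint2 : Integrable (fun x => (n : ℝ) * ∑ i, ‖c i‖ ^ 2 * ‖g i x‖ ^ 2) :=
    (integrable_finsetSum _ fun i _ => hint i).const_mul _
  unfold Y23.N2
  calc ∫ x, ‖∑ i, c i * g i x‖ ^ 2 ≤ ∫ x, (n : ℝ) * ∑ i, ‖c i‖ ^ 2 * ‖g i x‖ ^ 2 :=
        integral_mono (fa_comb c g hg).sq_int hint2 h1
    _ = n * ∑ i, ‖c i‖ ^ 2 * ∫ x, ‖g i x‖ ^ 2 := by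
        rw [integral_const_mul, integral_finsetSum _ fun i _ => hint i]
        congr 1
        exact Finset.sum_congr rfl fun i _ => integral_const_mul _ _

/-- the windows -/
lemma win (h1 : S_Pk) (h2 : Q240.EW.S_Mul) (h3 : S_Cv) : ∀ (ψ : ℝ → ℝ) (δ : ℝ), Bump ψ → 0 < δ → δ ≤ 1 / 2 →
    ∃ C0 : ℝ, ∀ C : ℝ, C0 ≤ C → ∃ A : ℝ, ∀ a η : ℝ, A ≤ a → 0 ≤ η →
      ∀ (m : ℕ) (L : Fin m → (ℝ → ℂ) →ₗ[ℂ] ℂ),
        (∀ g : ℝ → ℂ, Y23.Fa a g → (∀ j, L j g = 0) → -(Real.exp (2 * a * η) * Y23.N2 g) ≤ Y23.QQ (Sg ψ (Ht C a) g)) →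
        ∃ T : Fin m → ℝ, ∀ ρ : Zt, (1 / 2 + (η + δ) ≤ (ρ : ℂ).re ∧ |(ρ : ℂ).im| ≤ Ht C a) → ∃ j, |(ρ : ℂ).im - T j| ≤ 33 * a := by
  intro ψ δ hψ hδ hδ2
  obtain ⟨C1, hC1⟩ := h1 ψ δ hψ hδ hδ2
  obtain ⟨K, hK, hM⟩ := h2 1 one_pos
  refine ⟨|C1| + 8 / δ + 2, fun C hC => ?_⟩
  have q1 := le_abs_self C1
  have n1 := abs_nonneg C1
  have hδi : 0 < 8 / δ := by positivity
  obtain ⟨A0, hA0⟩ := hC1 C (by linarith)
  refine ⟨|A0| + 160 / δ ^ 2 + 6 * K + 1, fun a η ha hη m L hpos => ?_⟩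
  have q2 := le_abs_self A0
  have n2 := abs_nonneg A0
  have hδi2 : 0 < 160 / δ ^ 2 := by positivity
  have ha1 : 1 ≤ a := by linarith
  have ha0 : 0 < a := by linarith
  have haA : A0 ≤ a := by linarith
  have haK : 6 * K ≤ a := by linarith
  have haδ : 160 / δ ^ 2 ≤ a := by linarith
  have hC2 : 2 ≤ C := by linarith
  have hC8 : 8 / δ ≤ C := by linarith
  have hC0 : 0 < C := by linarith
  -- the height
  obtain ⟨H, hH⟩ : ∃ H : ℝ, H = Ht C a := ⟨_, rfl⟩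
  have hHpos : 0 < H := by rw [hH]; exact Real.exp_pos _
  have hH1 : 1 ≤ H := by rw [hH]; exact Real.one_le_exp (by positivity)
  have hHa : H ≤ Real.exp a := by
    rw [hH]
    refine Real.exp_le_exp.2 ?_
    rw [div_le_iff₀ hC0]
    nlinarith
  have hHδ : H ≤ Real.exp (δ * a / 4) := by
    rw [hH]
    refine Real.exp_le_exp.2 ?_
    rw [div_le_iff₀ hC0]
    have h4 : 8 ≤ C * δ := by
      rwa [div_le_iff₀ hδ] at hC8
    nlinarith
  rw [← hH] at hpos ⊢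
  by_contra hno
  have hno' : ∀ T : Fin m → ℝ, ∃ ρ : Zt, (1 / 2 + (η + δ) ≤ (ρ : ℂ).re ∧ |(ρ : ℂ).im| ≤ H) ∧
      ∀ j, 33 * a < |(ρ : ℂ).im - T j| := by
    intro T
    by_contra hT
    refine hno ⟨T, fun ρ hρ => ?_⟩
    by_contra hj
    refine hT ⟨ρ, hρ, fun j => ?_⟩
    by_contra hlt
    exact hj ⟨j, not_lt.1 hlt⟩
  obtain ⟨r, hr, hsep⟩ := exists_sep _ (33 * a) m hno' (m + 1) le_rfl
  have hg := fun i => hA0 a haA (r i) (by linarith [(hr i).1]) (by rw [← hH]; exact (hr i).2)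
  choose g hFa hN2 hQQ hTT using hg
  rw [← hH] at hQQ hTT
  obtain ⟨c, hc0, hcL⟩ := exists_comb L g
  obtain ⟨hcv1, hcv2, hcv3⟩ := h3 ψ H hψ hHpos
  have hlin := hcv3 a (m + 1) c g ha0 hFa
  have ha' : 0 < a + 1 / H := by positivity
  obtain ⟨k1, k2, k3⟩ := hM (a + 1 / H) ⊤ (m + 1) (fun i => Sg ψ H (g i)) (fun i => ((r i : Zt) : ℂ).im) (33 * a)
    (Real.exp (3 * a)) (Real.exp (-(16 * a))) H c ha' (fun i => hcv2 a (g i) ha0 (hFa i)) (by positivity)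
    (Real.exp_pos _).le (Real.exp_pos _).le (Real.exp_le_one_iff.2 (by linarith)) (fun i => (hr i).2)
    (fun i j hij => (hsep i j hij).le) hTT
  have hFa' := fa_comb c g hFa
  have hN2' := n2_comb c g hFa
  have key := hpos _ hFa' hcL
  rw [hlin] at key
  -- the sum of squares
  obtain ⟨S, hS⟩ : ∃ S : ℝ, S = ∑ i, ‖c i‖ ^ 2 := ⟨_, rfl⟩
  have hS0 : 0 < S := by
    obtain ⟨i, hi⟩ : ∃ i, c i ≠ 0 := by
      by_contra h
      exact hc0 (funext fun i => by_contra fun hi => h ⟨i, hi⟩)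
    rw [hS]
    exact Finset.sum_pos' (fun _ _ => by positivity) ⟨i, Finset.mem_univ _, by positivity⟩
  have hM0 : ((m + 1 : ℕ) : ℝ) ≤ 2 * H + 2 :=
    cnt (m + 1) (fun i => ((r i : Zt) : ℂ).im) H hHpos.le (fun i => (hr i).2)
      (fun i j hij => by
        have := (hsep i j hij).le
        linarith)
  have hM4 : ((m + 1 : ℕ) : ℝ) ≤ 4 * H := by linarith
  have hsq : (∑ i, ‖c i‖) ^ 2 ≤ 4 * H * S := by
    have h4 : (∑ i : Fin (m + 1), ‖c i‖) ^ 2 ≤ ((Finset.univ : Finset (Fin (m + 1))).card : ℝ) * ∑ i, ‖c i‖ ^ 2 :=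
      sq_sum_le_card_mul_sum_sq
    rw [Finset.card_univ, Fintype.card_fin, ← hS] at h4
    exact h4.trans (mul_le_mul_of_nonneg_right hM4 hS0.le)
  obtain ⟨X, hX⟩ : ∃ X : ℝ, X = Real.exp (2 * a * η) := ⟨_, rfl⟩
  have hX1 : 1 ≤ X := by rw [hX]; exact Real.one_le_exp (by positivity)
  obtain ⟨Y, hY⟩ : ∃ Y : ℝ, Y = Real.exp (δ * a / 4) := ⟨_, rfl⟩
  have hY5 : 5 * a + 1 ≤ Y := by
    have h4 : 0 ≤ δ * a / 4 := by positivity
    have h5 := Real.quadratic_le_exp_of_nonneg h4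
    have h6 : 160 ≤ a * δ ^ 2 := by
      rwa [div_le_iff₀ (by positivity)] at haδ
    have h7 : 5 * a ≤ (δ * a / 4) ^ 2 / 2 := by nlinarith
    rw [hY]
    linarith
  have hXY : X * Y ^ 2 = Real.exp (2 * a * (η + δ / 4)) := by
    rw [hX, hY, ← Real.exp_nat_mul, ← Real.exp_add]
    congr 1; push_cast; ring
  have hq1 : ∑ i, ‖c i‖ ^ 2 * Y23.QQ (Sg ψ H (g i)) ≤ -(X * Y ^ 2 * S) := by
    rw [hS, Finset.mul_sum, ← Finset.sum_neg_distrib]
    refine Finset.sum_le_sum fun i _ => ?_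
    have h4 : Y23.QQ (Sg ψ H (g i)) ≤ -(X * Y ^ 2) := by
      refine (hQQ i).trans ?_
      rw [hXY]
      refine neg_le_neg (Real.exp_le_exp.2 ?_)
      refine mul_le_mul_of_nonneg_left ?_ (by positivity)
      linarith [(hr i).1]
    have h5 : ‖c i‖ ^ 2 * Y23.QQ (Sg ψ H (g i)) ≤ ‖c i‖ ^ 2 * (-(X * Y ^ 2)) :=
      mul_le_mul_of_nonneg_left h4 (by positivity)
    linarith
  have hlog : Real.log (3 + H) ≤ 3 * Real.exp a := by
    have h4 := Real.log_le_sub_one_of_pos (by linarith : (0 : ℝ) < 3 + H)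
    linarith
  have hq3 : K * Real.exp (3 * a) ^ 2 * Real.log (3 + H) * (Real.exp (-(1 * (33 * a) / 2)) + Real.exp (-(16 * a))) *
      (∑ i, ‖c i‖) ^ 2 ≤ S / 2 := by
    have h4 : Real.exp (-(1 * (33 * a) / 2)) + Real.exp (-(16 * a)) ≤ 2 * Real.exp (-(16 * a)) := by
      have : Real.exp (-(1 * (33 * a) / 2)) ≤ Real.exp (-(16 * a)) := Real.exp_le_exp.2 (by linarith)
      linarith
    have h5 : (∑ i, ‖c i‖) ^ 2 ≤ 4 * Real.exp a * S := hsq.trans (by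
      refine mul_le_mul_of_nonneg_right ?_ hS0.le
      linarith)
    have hlog0 : 0 ≤ Real.log (3 + H) := Real.log_nonneg (by linarith)
    calc K * Real.exp (3 * a) ^ 2 * Real.log (3 + H) * (Real.exp (-(1 * (33 * a) / 2)) + Real.exp (-(16 * a))) *
      (∑ i, ‖c i‖) ^ 2
        ≤ K * Real.exp (3 * a) ^ 2 * (3 * Real.exp a) * (2 * Real.exp (-(16 * a))) * (4 * Real.exp a * S) := by
          refine mul_le_mul (mul_le_mul (mul_le_mul_of_nonneg_left hlog (by positivity)) h4 (by positivity)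
            (by positivity)) h5 (by positivity) (by positivity)
      _ = 24 * K * Real.exp (-(8 * a)) * S := by
          have e1 : Real.exp (3 * a) ^ 2 * Real.exp a * Real.exp (-(16 * a)) * Real.exp a = Real.exp (-(8 * a)) := by
            rw [← Real.exp_nat_mul, ← Real.exp_add, ← Real.exp_add, ← Real.exp_add]
            congr 1; push_cast; ring
          rw [← e1]; ring
      _ ≤ 1 / 2 * S := by
          refine mul_le_mul_of_nonneg_right ?_ hS0.le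
          rw [Real.exp_neg, ← div_eq_mul_inv, div_le_iff₀ (Real.exp_pos _)]
          have := Real.add_one_le_exp (8 * a)
          nlinarith
      _ = S / 2 := by ring
  have hn : X * Y23.N2 (fun x => ∑ i, c i * g i x) ≤ X * (4 * Y * (a * S)) := by
    refine mul_le_mul_of_nonneg_left ?_ (by linarith)
    refine hN2'.trans ?_
    have h4 : ∑ i, ‖c i‖ ^ 2 * Y23.N2 (g i) ≤ a * S := by
      rw [hS, Finset.mul_sum]
      refine Finset.sum_le_sum fun i _ => ?_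
      rw [mul_comm a]
      exact mul_le_mul_of_nonneg_left (hN2 i) (by positivity)
    have h5 : ((m + 1 : ℕ) : ℝ) ≤ 4 * Y := by
      rw [hY]; linarith
    calc ((m + 1 : ℕ) : ℝ) * ∑ i, ‖c i‖ ^ 2 * Y23.N2 (g i)
        ≤ ((m + 1 : ℕ) : ℝ) * (a * S) := mul_le_mul_of_nonneg_left h4 (by positivity)
      _ ≤ 4 * Y * (a * S) := mul_le_mul_of_nonneg_right h5 (by positivity)
  rw [← hX] at key
  have hfin : X * Y ^ 2 * S ≤ X * (4 * Y * (a * S)) + S / 2 := by linarith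
  have hfin2 : X * (4 * Y * (a * S)) + S / 2 < X * Y ^ 2 * S := by
    have h4 : 4 * Y * a + 1 / 2 < Y ^ 2 := by nlinarith
    have h5 : X * (4 * Y * a + 1 / 2) < X * Y ^ 2 := mul_lt_mul_of_pos_left h4 (by linarith)
    have h6 : 1 / 2 ≤ X * (1 / 2) := by linarith
    have h7 : X * (4 * Y * a) + 1 / 2 < X * Y ^ 2 := by linarith
    have h8 := mul_lt_mul_of_pos_right h7 hS0
    linarith
  linarith

/-- **Dw** -/
theorem dw (h1 : S_Pk) (h2 : Q240.EW.S_Mul) (h3 : S_Cv) : S_Dw := by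
  classical
  intro ψ δ hψ hδ hδ2
  obtain ⟨C0, h⟩ := win h1 h2 h3 ψ δ hψ hδ hδ2
  obtain ⟨K, hK, hcw⟩ := cw
  refine ⟨|C0| + 1, K * 33 * 165, by positivity, fun C hC => ?_⟩
  have q0 := le_abs_self C0
  have n0 := abs_nonneg C0
  have hC1 : 1 ≤ C := by linarith
  have hC0 : 0 < C := by linarith
  obtain ⟨A, hA⟩ := h C (by linarith)
  refine ⟨|A| + 1, fun a η ha hη m L hpos F hF => ?_⟩
  have q1 := le_abs_self A
  have n1 := abs_nonneg A
  have ha1 : 1 ≤ a := by linarith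
  obtain ⟨T, hT⟩ := hA a η (by linarith) hη m L hpos
  obtain ⟨H, hH⟩ : ∃ H : ℝ, H = Ht C a := ⟨_, rfl⟩
  have hHpos : 0 < H := by rw [hH]; exact Real.exp_pos _
  have hHa : H ≤ Real.exp (2 * a) := by
    rw [hH]
    exact Real.exp_le_exp.2 (div_le_self (by positivity) hC1)
  rw [← hH] at hT hF
  have hwin : ∀ ρ ∈ F, ∃ j, |ρ.im - T j| ≤ 33 * a := by
    intro ρ hρ
    obtain ⟨hz, hre, him⟩ := hF ρ hρ
    rcases le_total (1 / 2) ρ.re with h4 | h4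
    · rw [abs_of_nonneg (by linarith)] at hre
      exact hT ⟨ρ, hz⟩ ⟨by show 1 / 2 + (η + δ) ≤ ρ.re; linarith, him⟩
    · rw [abs_of_nonpos (by linarith)] at hre
      have e1 : ((Y23.rfZ ⟨ρ, hz⟩ : Zt) : ℂ).re = 1 - ρ.re := by rw [Y23.rfZ_val]; simp
      have e2 : ((Y23.rfZ ⟨ρ, hz⟩ : Zt) : ℂ).im = ρ.im := by rw [Y23.rfZ_val]; simp
      obtain ⟨j, hj⟩ := hT (Y23.rfZ ⟨ρ, hz⟩) ⟨by rw [e1]; linarith, by rw [e2]; exact him⟩
      rw [e2] at hj
      exact ⟨j, hj⟩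
  set T' : Fin m → ℝ := fun j => max (-H) (min H (T j)) with hT'
  have h8 : ∀ ρ ∈ F, (mu ρ : ℝ) ≤ ∑ j : Fin m, if |ρ.im - T' j| ≤ 33 * a then (mu ρ : ℝ) else 0 := by
    intro ρ hρ
    obtain ⟨j, hj⟩ := hwin ρ hρ
    have h9 : |ρ.im - T' j| ≤ 33 * a := (clamp_le (hF ρ hρ).2.2).trans hj
    have h10 := Finset.single_le_sum (f := fun j : Fin m => if |ρ.im - T' j| ≤ 33 * a then (mu ρ : ℝ) else 0)
      (fun i _ => by split_ifs; exacts [Nat.cast_nonneg _, le_rfl]) (Finset.mem_univ j)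
    rwa [if_pos h9] at h10
  obtain ⟨B, hB⟩ : ∃ B : ℝ, B = H + 33 * a := ⟨_, rfl⟩
  have hlog : Real.log (3 + 3 * B) ≤ 165 * a := by
    have h4 := Real.add_one_le_exp (2 * a)
    have e1 : 3 + 3 * B ≤ 106 * Real.exp (2 * a) := by
      rw [hB]; linarith
    have e2 : Real.log (106 * Real.exp (2 * a)) = Real.log 106 + 2 * a := by
      rw [Real.log_mul (by norm_num) (Real.exp_ne_zero _), Real.log_exp]
    have e3 : Real.log 106 ≤ 105 := (Real.log_le_sub_one_of_pos (by norm_num)).trans (by norm_num)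
    have e4 := Real.log_le_log (by rw [hB]; positivity) e1
    rw [e2] at e4
    linarith
  push_cast
  calc ∑ ρ ∈ F, (mu ρ : ℝ) ≤ ∑ ρ ∈ F, ∑ j : Fin m, (if |ρ.im - T' j| ≤ 33 * a then (mu ρ : ℝ) else 0) := Finset.sum_le_sum h8
    _ = ∑ j : Fin m, ∑ ρ ∈ F.filter (fun ρ => |ρ.im - T' j| ≤ 33 * a), (mu ρ : ℝ) := by
        rw [Finset.sum_comm]
        exact Finset.sum_congr rfl fun j _ => (Finset.sum_filter _ _).symm
    _ ≤ ∑ _j : Fin m, K * (33 * a) * (165 * a) := by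
        refine Finset.sum_le_sum fun j _ => ?_
        have h11 := hcw (F.filter (fun ρ => |ρ.im - T' j| ≤ 33 * a)) (T' j) (33 * a) B
          (fun ρ hρ => (hF ρ (Finset.mem_filter.1 hρ).1).1)
          (fun ρ hρ => (Finset.mem_filter.1 hρ).2) (by linarith)
          ((clamp_bd hHpos.le).trans (by rw [hB]; linarith)) (by rw [hB]; linarith)
        push_cast at h11
        exact h11.trans (mul_le_mul_of_nonneg_left hlog (by positivity))
    _ = m * (K * (33 * a) * (165 * a)) := by rw [Finset.sum_const, Finset.card_univ, Fintype.card_fin, nsmul_eq_mul]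
    _ = K * 33 * 165 * a ^ 2 * m := by ring

end Pool.Agent.Q208.SD
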